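import Pool.Agent.Helper60.HC.GoalsP
import Pool.Agent.Helper16.UN.HVB
import Pool.Agent.Helper29.BL.RH
import Pool.Agent.Helper29.BL.PS

/-!
# Project HC (MP_a41896_nt), packet ELOC2: local comparison by charts
-/

set_option autoImplicit false

namespace Pool.Agent.Helper51.HC.ELOC2

open WeierstrassCurve Height Height.AdmissibleAbsValues MvPolynomial
open Pool.Agent.Helper29.BL Pool.Agent.Helper92.Ru Pool.Agent.Helper42.SG
open Pool.Agent.Helper5.UN (hv CodimGT cH)
open Pool.Agent.Helper60.HC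

noncomputable section

/-- exponents -/
def ex {σ : Type} [DecidableEq σ] (J : Finset σ) (E : ℕ) (i : σ) : ℕ := if i ∈ J then E else 0

/-- pair of a chart coordinate -/
def pa {S : Type} [CommRing S] {σ : Type} (a : σ → Bool) (ζ : σ → S) (i : σ) : Fin 2 → S :=
  if a i = true then ![ζ i, 1] else ![1, ζ i]

/-- the homogenised polynomial -/
def Zt {K : Type} [Field K] {σ : Type} [Fintype σ] [DecidableEq σ] (J : Finset σ) (E : ℕ)
    (a : σ → Bool) (Z : MvPolynomial σ K) : MvPolynomial σ K :=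
  hv C (ex J E) Z (pa a X)

section alg

variable {K : Type} [Field K] {σ : Type} [Fintype σ]

lemma chs_eq (a : σ → Bool) (D : ℕ) (g : MvPolynomial σ K) :
    chs a D g = hv C (fun _ => D) g (pa a X) := rfl

lemma eval_hv0 (Ei : σ → ℕ) (g : MvPolynomial σ K) (a : σ → Bool) (x : σ → K) :
    eval x (hv C Ei g (pa a X)) = hv (RingHom.id K) Ei g (pa a x) := by
  have h5 := Pool.Agent.Helper16.UN.gHVB.2.2.2.2.1 K (MvPolynomial σ K) K C (eval x) σ Ei g
    (pa a X)
  rw [h5]
  have h6 : (eval x).comp (C : K →+* MvPolynomial σ K) = RingHom.id K := by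
    ext r; simp
  rw [h6]
  congr 1
  funext i j
  unfold pa
  split_ifs <;> fin_cases j <;> simp

lemma eval_hv1 (Ei : σ → ℕ) (g : MvPolynomial σ K) (hg : ∀ i, degreeOf i g ≤ Ei i)
    (a : σ → Bool) (x κ ζ : σ → K) (h : ∀ i, pa a x i = κ i • ![ζ i, 1]) :
    eval x (hv C Ei g (pa a X)) = (∏ i, κ i ^ Ei i) * eval ζ g := by
  rw [eval_hv0]
  have h1 : pa a x = fun i => κ i • ![ζ i, 1] := funext h
  rw [h1, Pool.Agent.Helper16.UN.gHVB.2.2.1 K K (RingHom.id K) σ Ei g κ _ hg,
    Pool.Agent.Helper16.UN.gHVB.2.2.2.1 K K (RingHom.id K) σ Ei g ζ, eval₂_id]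

variable [DecidableEq σ]

lemma degreeOf_pa (a : σ → Bool) (J : Finset σ) (E : ℕ) (g : σ →₀ ℕ) (hg : ∀ k, g k ≤ ex J E k)
    (i k : σ) :
    degreeOf i ((pa a (X : σ → MvPolynomial σ K)) k 0 ^ g k *
      (pa a (X : σ → MvPolynomial σ K)) k 1 ^ (ex J E k - g k)) ≤ if i = k then ex J E k else 0 := by
  have hk := hg k
  have hX : ∀ m : ℕ, m ≤ ex J E k → degreeOf i ((X k : MvPolynomial σ K) ^ m) ≤
      if i = k then ex J E k else 0 := by
    intro m hm
    refine (degreeOf_pow_le i _ m).trans ?_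
    rw [degreeOf_X]
    split_ifs with h
    · simpa using hm
    · simp
  by_cases h1 : a k = true
  · have h2 : pa a (X : σ → MvPolynomial σ K) k = ![X k, 1] := by simp [pa, h1]
    rw [h2]
    simp only [Matrix.cons_val_zero, Matrix.cons_val_one, one_pow, mul_one]
    exact hX (g k) hk
  · have h2 : pa a (X : σ → MvPolynomial σ K) k = ![1, X k] := by simp [pa, h1]
    rw [h2]
    simp only [Matrix.cons_val_zero, Matrix.cons_val_one, one_pow, one_mul]
    exact hX (ex J E k - g k) (Nat.sub_le _ _)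

lemma degreeOf_Zt (J : Finset σ) (E : ℕ) (a : σ → Bool) (Z : MvPolynomial σ K)
    (hZ : ∀ i, degreeOf i Z ≤ ex J E i) (i : σ) : degreeOf i (Zt J E a Z) ≤ ex J E i := by
  unfold Zt hv
  refine (degreeOf_sum_le i _ _).trans (Finset.sup_le fun g hg => ?_)
  have hgd : ∀ k, g k ≤ ex J E k := fun k => Pool.Agent.Helper16.UN.deg_le' hZ hg k
  refine (degreeOf_C_mul_le _ i _).trans ?_
  refine (degreeOf_prod_le i _ _).trans ?_
  calc _ ≤ ∑ k : σ, (if i = k then ex J E k else 0) :=
        Finset.sum_le_sum fun k _ => degreeOf_pa a J E g hgd i k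
    _ = ex J E i := by simp

end alg

section loc

variable {K : Type} [Field K] {σ : Type} [Fintype σ] [DecidableEq σ]

lemma prod_ex (v : AbsoluteValue K ℝ) (x : σ → K) (J : Finset σ) (E : ℕ) :
    ∏ i, Mv v (x i) ^ ex J E i = (∏ i ∈ J, Mv v (x i)) ^ E := by
  rw [← Finset.prod_pow, ← Finset.prod_subset (Finset.subset_univ J)]
  · refine Finset.prod_congr rfl fun i hi => ?_
    simp [ex, hi]
  · intro i _ hi
    simp [ex, hi]

/-- the chart of a point -/
def ch (v : AbsoluteValue K ℝ) (x : σ → K) (i : σ) : Bool := decide (v (x i) ≤ 1)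

def ze (v : AbsoluteValue K ℝ) (x : σ → K) (i : σ) : K := if v (x i) ≤ 1 then x i else (x i)⁻¹

def ka (v : AbsoluteValue K ℝ) (x : σ → K) (i : σ) : K := if v (x i) ≤ 1 then 1 else x i

omit [Fintype σ] [DecidableEq σ] in
lemma x_ne (v : AbsoluteValue K ℝ) (x : σ → K) (i : σ) (h : ¬ v (x i) ≤ 1) : x i ≠ 0 := by
  intro h0; rw [h0, map_zero] at h; exact h zero_le_one

omit [Fintype σ] [DecidableEq σ] in
lemma ka_ne (v : AbsoluteValue K ℝ) (x : σ → K) (i : σ) : ka v x i ≠ 0 := by
  unfold ka; split_ifs with h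
  · exact one_ne_zero
  · exact x_ne v x i h

omit [Fintype σ] [DecidableEq σ] in
lemma v_ka (v : AbsoluteValue K ℝ) (x : σ → K) (i : σ) : v (ka v x i) = Mv v (x i) := by
  unfold ka Mv; split_ifs with h
  · rw [map_one, max_eq_left h]
  · rw [max_eq_right (le_of_not_ge h)]

omit [Fintype σ] [DecidableEq σ] in
lemma v_ze (v : AbsoluteValue K ℝ) (x : σ → K) (i : σ) : v (ze v x i) ≤ 1 := by
  unfold ze; split_ifs with h
  · exact h
  · rw [map_inv₀]
    exact inv_le_one_of_one_le₀ (le_of_not_ge h)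

omit [Fintype σ] [DecidableEq σ] in
lemma pa1 (v : AbsoluteValue K ℝ) (x : σ → K) (i : σ) :
    pa (ch v x) x i = ka v x i • ![ze v x i, 1] := by
  unfold pa ch ze ka
  by_cases h : v (x i) ≤ 1
  · simp [h]
  · have h0 := x_ne v x i h
    funext j
    fin_cases j <;> simp [h, h0]

omit [Fintype σ] [DecidableEq σ] in
lemma pa2 (v : AbsoluteValue K ℝ) (x : σ → K) (i : σ) :
    pa (ch v x) (ze v x) i = (ka v x i)⁻¹ • ![x i, 1] := by
  unfold pa ch ze ka
  by_cases h : v (x i) ≤ 1
  · simp [h]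
  · have h0 := x_ne v x i h
    funext j
    fin_cases j <;> simp [h, h0]

omit [DecidableEq σ] in
lemma v_chs (v : AbsoluteValue K ℝ) (x : σ → K) (D : ℕ) (f : MvPolynomial σ K)
    (hf : ∀ i, degreeOf i f ≤ D) :
    v (eval (ze v x) (chs (ch v x) D f)) * (∏ i, Mv v (x i)) ^ D = v (eval x f) := by
  rw [chs_eq, eval_hv1 (fun _ => D) f hf (ch v x) (ze v x) (fun i => (ka v x i)⁻¹) x (pa2 v x),
    map_mul, map_prod]
  have h1 : ∏ i, v ((ka v x i)⁻¹ ^ D) = ((∏ i, Mv v (x i)) ^ D)⁻¹ := by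
    rw [← Finset.prod_pow, ← Finset.prod_inv_distrib]
    refine Finset.prod_congr rfl fun i _ => ?_
    rw [map_pow, map_inv₀, v_ka, inv_pow]
  rw [h1]
  have h2 : 0 < (∏ i, Mv v (x i)) ^ D := pow_pos (Finset.prod_pos fun i _ => Mv_pos v _) _
  field_simp

lemma v_Zt (v : AbsoluteValue K ℝ) (x : σ → K) (J : Finset σ) (E : ℕ) (Z : MvPolynomial σ K)
    (hZ : ∀ i, degreeOf i Z ≤ ex J E i) :
    v (eval x (Zt J E (ch v x) Z)) = (∏ i ∈ J, Mv v (x i)) ^ E * v (eval (ze v x) Z) := by
  unfold Zt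
  rw [eval_hv1 (ex J E) Z hZ (ch v x) x (ka v x) (ze v x) (pa1 v x), map_mul, map_prod,
    ← prod_ex]
  congr 1
  refine Finset.prod_congr rfl fun i _ => ?_
  rw [map_pow, v_ka]

lemma Zt_ne [Infinite K] (J : Finset σ) (E : ℕ) (a : σ → Bool) (Z : MvPolynomial σ K)
    (hZ : ∀ i, degreeOf i Z ≤ ex J E i) (h0 : Z ≠ 0) : Zt J E a Z ≠ 0 := by
  intro hcon
  have h1 : Z * ∏ i, X i ≠ 0 :=
    mul_ne_zero h0 (Finset.prod_ne_zero_iff.mpr fun i _ => X_ne_zero i)
  obtain ⟨ζ, hζ⟩ : ∃ ζ : σ → K, eval ζ (Z * ∏ i, X i) ≠ 0 := by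
    by_contra hc
    push Not at hc
    exact h1 (MvPolynomial.funext fun x => by rw [hc x, map_zero])
  rw [map_mul, map_prod] at hζ
  have h2 := left_ne_zero_of_mul hζ
  have h3 : ∀ i, ζ i ≠ 0 := by
    intro i
    have h4 := Finset.prod_ne_zero_iff.mp (right_ne_zero_of_mul hζ) i (Finset.mem_univ i)
    simpa using h4
  have h5 := eval_hv1 (ex J E) Z hZ a (fun i => if a i = true then ζ i else (ζ i)⁻¹)
    (fun i => if a i = true then 1 else (ζ i)⁻¹) ζ (fun i => by
      unfold pa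
      by_cases h : a i = true
      · simp [h]
      · have h6 := h3 i
        funext j
        fin_cases j <;> simp [h, h6])
  have h7 : eval (fun i => if a i = true then ζ i else (ζ i)⁻¹) (Zt J E a Z) = 0 := by
    rw [hcon, map_zero]
  unfold Zt at h7
  rw [h5] at h7
  rcases mul_eq_zero.mp h7 with h8 | h8
  · rw [Finset.prod_eq_zero_iff] at h8
    obtain ⟨i, _, hi⟩ := h8
    have h10 : (if a i = true then (1 : K) else (ζ i)⁻¹) ≠ 0 := by
      split_ifs
      · exact one_ne_zero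
      · exact inv_ne_zero (h3 i)
    exact (pow_ne_zero _ h10) hi
  · exact h2 h8

end loc

theorem t (hel : S_ELIM) : S_ELOC2 := by
  intro K _ _ σ _ _ s D ι _ f hf hcod
  obtain ⟨E, hE1, hE⟩ := hel K σ s D ι f hf hcod
  -- choices
  have hE' : ∀ (J : Finset σ) (a : σ → Bool), ∃ (Z : MvPolynomial σ K) (h : ι → MvPolynomial σ K),
      Fintype.card σ ≤ J.card + s → Z ≠ 0 ∧ (∀ i, Z.degreeOf i ≤ ex J E i) ∧
        Z = ∑ j, h j * chs a D (f j) := by
    intro J a
    by_cases hJ : Fintype.card σ ≤ J.card + s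
    · obtain ⟨Z, h, h1, h2, h3, h4⟩ := hE J hJ a
      refine ⟨Z, h, fun _ => ⟨h1, fun i => ?_, h4⟩⟩
      unfold ex
      split_ifs with hi
      · exact h2 i
      · exact (h3 i hi).le
    · exact ⟨0, 0, fun h => absurd h hJ⟩
  choose Z h hZ using hE'
  have hc1 : ∀ (J : Finset σ) (a : σ → Bool), ∃ c : AbsoluteValue K ℝ → ℝ, FS c ∧ (∀ v, 0 ≤ c v) ∧
      (Fintype.card σ ≤ J.card + s → ∀ v (x : σ → K), v (eval x (Zt J E a (Z J a))) ≤
        Real.exp (c v) * (∏ i ∈ J, Mv v (x i)) ^ E) := by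
    intro J a
    by_cases hJ : Fintype.card σ ≤ J.card + s
    · obtain ⟨c, c1, c2, c3⟩ := Pool.Agent.Helper16.UN.gHVB.2.2.2.2.2.1 K σ (ex J E) (Z J a)
        (hZ J a hJ).2.1
      refine ⟨c, c1, c2, fun _ v x => ?_⟩
      unfold Zt
      rw [eval_hv0]
      refine (c3 v (pa a x)).trans (le_of_eq ?_)
      rw [← prod_ex]
      congr 1
      refine Finset.prod_congr rfl fun i _ => ?_
      congr 1
      unfold pa Mv
      split_ifs
      · simp [max_comm]
      · simp
    · exact ⟨fun _ => 0, FS.zero, fun _ => le_rfl, fun h => absurd h hJ⟩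
  have hc2 : ∀ (J : Finset σ) (a : σ → Bool) (j : ι), ∃ c : AbsoluteValue K ℝ → ℝ, FS c ∧
      (∀ v, 0 ≤ c v) ∧ ∀ v (ζ : σ → K), (∀ i, v (ζ i) ≤ 1) →
        v (eval ζ (h J a j)) ≤ Real.exp (c v) := by
    intro J a j
    obtain ⟨c, c1, c2, c3⟩ := Pool.Agent.Helper16.UN.gHVB.2.2.2.2.2.1 K σ
      (fun i => degreeOf i (h J a j)) (h J a j) (fun i => le_rfl)
    refine ⟨c, c1, c2, fun v ζ hζ => ?_⟩
    have h1 := c3 v (fun i => ![ζ i, 1])
    rw [Pool.Agent.Helper16.UN.gHVB.2.2.2.1 K K (RingHom.id K) σ _ _ ζ, eval₂_id] at h1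
    refine h1.trans (le_of_eq ?_)
    have h2 : ∀ i, max (v ((![ζ i, 1] : Fin 2 → K) 0)) (v ((![ζ i, 1] : Fin 2 → K) 1)) = 1 := by
      intro i
      simp [hζ i]
    simp only [h2, one_pow, Finset.prod_const_one, mul_one]
  choose c1 c1F c1p c1b using hc1
  choose c2 c2F c2p c2b using hc2
  set N := Fintype.card (σ → Bool) with hN
  have hN1 : 1 ≤ N := Fintype.card_pos
  have hcard : (1 : ℝ) ≤ (Fintype.card ι : ℝ) + 1 := by
    have : (0 : ℝ) ≤ (Fintype.card ι : ℝ) := Nat.cast_nonneg _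
    linarith
  set S : AbsoluteValue K ℝ → ℝ := fun v => ∑ J : Finset σ, ∑ a : σ → Bool,
    (c1 J a v + ∑ j, c2 J a j v) with hS
  have hSF : FS S := FS.sum _ fun J _ => FS.sum _ fun a _ =>
    (c1F J a).add (FS.sum _ fun j _ => c2F J a j)
  refine ⟨E * N, fun v => cst v (Fintype.card ι + 1) * Real.exp (S v), ?_, ⟨?_, ?_⟩, ?_⟩
  · exact Nat.one_le_iff_ne_zero.mpr (Nat.mul_ne_zero (by omega) (by omega))
  · intro v
    have h1 := one_le_cst v hcard
    have h2 : 0 ≤ S v := Finset.sum_nonneg fun J _ => Finset.sum_nonneg fun a _ =>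
      add_nonneg (c1p J a v) (Finset.sum_nonneg fun j _ => c2p J a j v)
    have h3 := Real.one_le_exp h2
    nlinarith
  · have h1 : (fun v => Real.log (cst v (Fintype.card ι + 1) * Real.exp (S v))) =
        fun v => Real.log (cst (K := K) v (Fintype.card ι + 1)) + S v := by
      funext v
      rw [Real.log_mul (cst_pos v hcard).ne' (Real.exp_pos _).ne', Real.log_exp]
    rw [h1]
    exact (FS_log_cst _).add hSF
  · intro J hJ
    have hZJ := fun a => hZ J a hJ
    refine ⟨∏ a : σ → Bool, Zt J E a (Z J a), ?_, ?_, ?_, ?_⟩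
    · exact Finset.prod_ne_zero_iff.mpr fun a _ => Zt_ne J E a _ (hZJ a).2.1 (hZJ a).1
    · intro i
      refine (degreeOf_prod_le i _ _).trans ?_
      calc _ ≤ ∑ _a : σ → Bool, E := Finset.sum_le_sum fun a _ =>
            (degreeOf_Zt J E a _ (hZJ a).2.1 i).trans (by unfold ex; split_ifs <;> omega)
        _ = E * N := by rw [Finset.sum_const, Finset.card_univ, smul_eq_mul, mul_comm]
    · intro i hi
      refine Nat.le_zero.mp ((degreeOf_prod_le i _ _).trans ?_)
      calc _ ≤ ∑ _a : σ → Bool, 0 := Finset.sum_le_sum fun a _ =>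
            (degreeOf_Zt J E a _ (hZJ a).2.1 i).trans (by unfold ex; simp [hi])
        _ = 0 := by simp
    · intro v x
      set a0 := ch v x with ha0
      set M := (∏ i ∈ J, Mv v (x i)) ^ E with hM
      set Q := (∏ i, Mv v (x i)) ^ D with hQ
      set F := ⨆ j, v (eval x (f j)) with hF
      have hMJ : 1 ≤ ∏ i ∈ J, Mv v (x i) := by
        calc (1 : ℝ) = ∏ _i ∈ J, 1 := by simp
          _ ≤ _ := Finset.prod_le_prod (fun _ _ => zero_le_one) fun i _ => one_le_Mv v (x i)
      have hM1 : 1 ≤ M := one_le_pow₀ hMJ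
      have hQ0 : 0 < Q := pow_pos (Finset.prod_pos fun i _ => Mv_pos v _) _
      have hF0 : 0 ≤ F := Real.iSup_nonneg fun _ => v.nonneg _
      have hle : ∀ j, v (eval x (f j)) ≤ F := fun j =>
        le_ciSup (Set.finite_range fun j => v (eval x (f j))).bddAbove j
      -- the good chart
      have key1 : v (eval x (Zt J E a0 (Z J a0))) * Q ≤
          M * (cst v (Fintype.card ι + 1) * (Real.exp (∑ j, c2 J a0 j v) * F)) := by
        rw [v_Zt v x J E (Z J a0) (hZJ a0).2.1]
        have h1 : v (eval (ze v x) (Z J a0)) ≤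
            cst v (Fintype.card ι + 1) * (Real.exp (∑ j, c2 J a0 j v) * (F / Q)) := by
          rw [(hZJ a0).2.2, map_sum]
          refine abv_sum_le v _ _ (by positivity) (fun j _ => ?_) ?_
          · rw [map_mul, map_mul]
            refine mul_le_mul ?_ ?_ (v.nonneg _) (Real.exp_pos _).le
            · refine (c2b J a0 j v _ (v_ze v x)).trans (Real.exp_le_exp.mpr ?_)
              exact Finset.single_le_sum (f := fun j => c2 J a0 j v) (fun j _ => c2p J a0 j v)
                (Finset.mem_univ j)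
            · rw [le_div_iff₀ hQ0]
              exact (v_chs v x D (f j) (fun i => hf j i)).le.trans (hle j)
          · rw [Finset.card_univ]; linarith
        calc M * v (eval (ze v x) (Z J a0)) * Q ≤
            M * (cst v (Fintype.card ι + 1) * (Real.exp (∑ j, c2 J a0 j v) * (F / Q))) * Q := by
              gcongr
          _ = _ := by field_simp
      have key2 : ∏ a ∈ Finset.univ.erase a0, v (eval x (Zt J E a (Z J a))) ≤
          Real.exp (∑ a ∈ Finset.univ.erase a0, c1 J a v) * M ^ (N - 1) := by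
        calc _ ≤ ∏ a ∈ Finset.univ.erase a0, (Real.exp (c1 J a v) * M) :=
              Finset.prod_le_prod (fun a _ => v.nonneg _) fun a _ => c1b J a hJ v x
          _ = _ := by
              rw [Finset.prod_mul_distrib, ← Real.exp_sum, Finset.prod_const,
                Finset.card_erase_of_mem (Finset.mem_univ _), Finset.card_univ]
      have hsum : (∑ a ∈ Finset.univ.erase a0, c1 J a v) + ∑ j, c2 J a0 j v ≤ S v := by
        have h1 : ∑ a : σ → Bool, (c1 J a v + ∑ j, c2 J a j v) ≤ S v :=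
          Finset.single_le_sum (f := fun J => ∑ a : σ → Bool, (c1 J a v + ∑ j, c2 J a j v))
            (fun J _ => Finset.sum_nonneg fun a _ =>
              add_nonneg (c1p J a v) (Finset.sum_nonneg fun j _ => c2p J a j v)) (Finset.mem_univ J)
        refine le_trans ?_ h1
        rw [Finset.sum_add_distrib]
        refine add_le_add ?_ ?_
        · exact Finset.sum_le_sum_of_subset_of_nonneg (Finset.erase_subset _ _)
            fun a _ _ => c1p J a v
        · exact Finset.single_le_sum (f := fun a => ∑ j, c2 J a j v)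
            (fun a _ => Finset.sum_nonneg fun j _ => c2p J a j v) (Finset.mem_univ a0)
      have hpow : (∏ i ∈ J, Mv v (x i)) ^ (E * N) = M * M ^ (N - 1) := by
        rw [pow_mul, ← hM, ← pow_succ']
        congr 1; omega
      rw [map_prod, map_prod, ← Finset.mul_prod_erase _ _ (Finset.mem_univ a0), hpow]
      calc v (eval x (Zt J E a0 (Z J a0))) *
            (∏ a ∈ Finset.univ.erase a0, v (eval x (Zt J E a (Z J a)))) * Q
          = (v (eval x (Zt J E a0 (Z J a0))) * Q) *
            (∏ a ∈ Finset.univ.erase a0, v (eval x (Zt J E a (Z J a)))) := by ring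
        _ ≤ (M * (cst v (Fintype.card ι + 1) * (Real.exp (∑ j, c2 J a0 j v) * F))) *
            (Real.exp (∑ a ∈ Finset.univ.erase a0, c1 J a v) * M ^ (N - 1)) := by
              have := cst_pos v hcard
              exact mul_le_mul key1 key2 (Finset.prod_nonneg fun a _ => v.nonneg _)
                (by positivity)
        _ = (cst v (Fintype.card ι + 1) * Real.exp ((∑ a ∈ Finset.univ.erase a0, c1 J a v) +
            ∑ j, c2 J a0 j v)) * (M * M ^ (N - 1)) * F := by rw [Real.exp_add]; ring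
        _ ≤ (cst v (Fintype.card ι + 1) * Real.exp (S v)) * (M * M ^ (N - 1)) * F := by
              have := cst_pos v hcard
              gcongr

end

end Pool.Agent.Helper51.HC.ELOC2
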