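import Pool.Agent.Helper60.HC.GoalsP

/-!
# Project HC (MP_a41896_nt), packet LOR: rules for `Lo`
-/

set_option autoImplicit false

namespace Pool.Agent.Helper51.HC.LOR

open MvPolynomial
open Pool.Agent.Helper92.Ru
open Pool.Agent.Helper60.HC

lemma mem_support_rename {k : Type} [Field k] {σ τ : Type} (e : σ → τ)
    (he : Function.Injective e) (p : MvPolynomial σ k) (u : σ →₀ ℕ) :
    Finsupp.mapDomain e u ∈ (rename e p).support ↔ u ∈ p.support := by
  rw [mem_support_iff, mem_support_iff, coeff_rename_mapDomain _ he]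

/-- the height does not change under a renaming of the variables -/
lemma PH_rename {k : Type} [Field k] [NumberField k] {σ τ : Type} (e : σ → τ)
    (he : Function.Injective e) (p : MvPolynomial σ k) : PH (rename e p) = PH p := by
  classical
  obtain ⟨E, hE⟩ : ∃ E : p.support → (rename e p).support, ∀ u, (E u).1 = Finsupp.mapDomain e u.1 :=
    ⟨fun u => ⟨Finsupp.mapDomain e u.1, (mem_support_rename e he p u.1).mpr u.2⟩, fun _ => rfl⟩
  have hb : Function.Bijective E := by
    constructor
    · intro u v huv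
      apply Subtype.ext
      apply Finsupp.mapDomain_injective he
      rw [← hE u, ← hE v, huv]
    · rintro ⟨v, hv⟩
      have hv' := hv
      rw [support_rename_of_injective he, Finset.mem_image] at hv'
      obtain ⟨u, hu, huv⟩ := hv'
      exact ⟨⟨u, hu⟩, Subtype.ext ((hE _).trans huv)⟩
  have h := Height.mulHeight_comp_equiv (Equiv.ofBijective E hb)
    (fun v : (rename e p).support => coeff v.1 (rename e p))
  unfold PH
  rw [← h]
  congr 1
  funext u
  rw [Function.comp_apply, Equiv.ofBijective_apply, hE, coeff_rename_mapDomain _ he]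

lemma deg_out {k : Type} [Field k] {σ τ : Type} (e : σ → τ) (p : MvPolynomial σ k) (i : τ)
    (hi : i ∉ Set.range e) : degreeOf i (rename e p) = 0 := by
  classical
  rw [degreeOf_def, Multiset.count_eq_zero]
  intro h
  have h1 : i ∈ (rename e p).vars := by rw [vars_def, Multiset.mem_toFinset]; convert h
  have h2 := vars_rename e p h1
  rw [Finset.mem_image] at h2
  obtain ⟨j, _, hj⟩ := h2
  exact hi ⟨j, hj⟩

lemma mono {K : Type} [Field K] [NumberField K] {σ : Type} (x : σ → K)
    (I I' : Finset σ) (D D' : ℕ) (A A' : ℝ) (hI : I ⊆ I') (hD : D ≤ D') (hA : A ≤ A')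
    (h : Lo I D A x) : Lo I' D' A' x := by
  obtain ⟨g, h1, h2, h3, h4, h5⟩ := h
  exact ⟨g, h1, fun i => (h2 i).trans hD, fun i hi => h3 i fun h => hi (hI h), h4, h5.trans hA⟩

lemma not_empty {K : Type} [Field K] [NumberField K] {σ : Type} (x : σ → K)
    (D : ℕ) (A : ℝ) : ¬ Lo (∅ : Finset σ) D A x := by
  classical
  rintro ⟨g, h1, -, h3, h4, -⟩
  have h5 : ∀ m ∈ g.support, m = 0 := by
    intro m hm
    ext i
    have h6 := h3 i (by simp)
    rw [degreeOf_eq_sup] at h6
    have h7 := (Finset.le_sup (f := fun m : σ →₀ ℕ => m i) hm)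
    rw [h6] at h7
    simpa using h7
  have h6 : g = C (coeff 0 g) := by
    ext m
    rw [coeff_C]
    split_ifs with h
    · rw [← h]
    · by_contra hc
      exact h (h5 m (mem_support_iff.mpr hc)).symm
  rw [h6, eval_C] at h4
  rw [h4, map_zero] at h6
  exact h1 h6

theorem t : S_LOR := by
  intro K _ _ σ _ _ x
  refine ⟨mono x, ?_, not_empty x, ?_⟩
  · rintro I D A ⟨g, h1, h2, -, h4, h5⟩
    have hinj : Function.Injective (Subtype.val : {i // i ∈ I} → σ) := Subtype.val_injective
    refine ⟨rename Subtype.val g, ?_, ?_, ?_, ?_, ?_⟩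
    · intro h
      exact h1 (rename_injective _ hinj (h.trans (map_zero _).symm))
    · intro i
      by_cases hi : i ∈ I
      · have := degreeOf_rename_of_injective (p := g) hinj ⟨i, hi⟩
        rw [show (i : σ) = Subtype.val (⟨i, hi⟩ : {i // i ∈ I}) from rfl, this]
        exact h2 _
      · rw [deg_out _ _ _ (by rintro ⟨j, hj⟩; exact hi (hj ▸ j.2))]
        exact Nat.zero_le _
    · intro i hi
      exact deg_out _ _ _ (by rintro ⟨j, hj⟩; exact hi (hj ▸ j.2))
    · rw [eval_rename]; exact h4
    · rw [PH_rename _ hinj]; exact h5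
  · intro k D A hk
    classical
    obtain ⟨I0, hI0, hmax⟩ := Finset.exists_max_image
      (Finset.univ.filter fun I : Finset σ => ¬ Lo I D A x) Finset.card
      ⟨∅, by simp [not_empty x D A]⟩
    have h0 : ¬ Lo I0 D A x := by simpa using hI0
    refine ⟨I0, ?_, h0, ?_⟩
    · by_contra hc
      push Not at hc
      obtain ⟨I', h1, h2⟩ := Finset.exists_subset_card_eq (Nat.succ_le_of_lt hc)
      exact h0 (mono x I' I0 D D A A h1 le_rfl le_rfl (hk I' h2))
    · intro i hi
      by_contra hc
      have h1 := hmax (insert i I0) (by simpa using hc)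
      rw [Finset.card_insert_of_notMem hi] at h1
      omega

end Pool.Agent.Helper51.HC.LOR
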